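import Pool.Agent.Y714.KG.Bs

set_option autoImplicit false
set_option linter.unusedSectionVars false
set_option linter.unusedVariables false

/-! Project KG, step CLF: nonempty cells. -/

namespace Pool.Agent.Y455.KG

open Pool.Agent.Y714.KG
open Pool.Agent.Y714.KE (Al FA FU Em Ux dg cf cp vc cn nA sm un SYM QY tt)
open Pool.Agent.Y714.KF (FI sp ct nm pm ext br ubas qf)
open NumberField FractionalIdeal Module Finset ComplexConjugate
open scoped nonZeroDivisors

section

variable {F : Type} [Field F] [NumberField F] {s : Type} [Fintype s] [DecidableEq s]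
  {K : s → Type} [∀ i, Field (K i)] [∀ i, NumberField (K i)] [∀ i, Algebra F (K i)]

/-- the sizes of the components are bounded in a cell -/
theorem uF_le (hSUF : S_SUF F K) (hCRD : S_CRD F K) (hn : 2 ≤ dF F K) {P : Al K × Al K}
    (hP : NDF F P) {i₀ : s} {y : s → ℝ}
    (h1 : ∀ i, i ≠ i₀ → y i ≤ uF F (vc P) i ∧ uF F (vc P) i < y i + 1)
    (h2 : pF F (vc P) ≤ tt (K := K) y) (i : s) : uF F (vc P) i ≤ y i + 1 := by
  by_cases hi : i = i₀
  · subst hi
    have hpm : 0 < pF F (vc P) := prod_pos fun w _ => pm_pos' hCRD hn hP w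
    have h7 : (0 : ℝ) < finrank ℚ (K i) := by exact_mod_cast (finrank_pos : 0 < finrank ℚ (K i))
    have hdg : 0 < dg K := by
      unfold Pool.Agent.Y714.KE.dg
      exact lt_of_lt_of_le (finrank_pos : 0 < finrank ℚ (K i))
        (single_le_sum (f := fun i => finrank ℚ (K i)) (fun _ _ => Nat.zero_le _) (mem_univ i))
    have h3 := hSUF hdg (vc P)
    have h4 : Real.log (pF F (vc P)) ≤ 2 * ∑ j, (finrank ℚ (K j) : ℝ) * y j := by
      rw [← Real.log_exp (2 * ∑ j, (finrank ℚ (K j) : ℝ) * y j)]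
      exact Real.log_le_log hpm h2
    have h5 : ∑ j, (finrank ℚ (K j) : ℝ) * uF F (vc P) j ≤
        ∑ j, (finrank ℚ (K j) : ℝ) * y j := by
      rw [h3]
      linarith
    rw [← add_sum_erase univ (fun j => (finrank ℚ (K j) : ℝ) * uF F (vc P) j) (mem_univ i),
      ← add_sum_erase univ (fun j => (finrank ℚ (K j) : ℝ) * y j) (mem_univ i)] at h5
    have h6 : ∑ j ∈ univ.erase i, (finrank ℚ (K j) : ℝ) * y j ≤
        ∑ j ∈ univ.erase i, (finrank ℚ (K j) : ℝ) * uF F (vc P) j := by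
      refine sum_le_sum fun j hj => ?_
      exact mul_le_mul_of_nonneg_left (h1 j (ne_of_mem_erase hj)).1 (Nat.cast_nonneg _)
    have h8 : (finrank ℚ (K i) : ℝ) * uF F (vc P) i ≤ finrank ℚ (K i) * y i := by linarith
    have h9 := le_of_mul_le_mul_left h8 h7
    linarith
  · exact (h1 i hi).2.le

/-- brackets of pairs in a cell -/
theorem br_cell (hBRF : S_BRF F K) (hSUF : S_SUF F K) (hCRD : S_CRD F K) (hodd : Odd (dF F K))
    (hn : 2 ≤ dF F K) (κ : Ux K → ℝ) : ∃ C : ℝ, 0 < C ∧ ∀ (i₀ : s) (y : s → ℝ)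
    (P : Al K × Al K), NDF F P → NZF F κ (vc P) →
      (∀ i, i ≠ i₀ → y i ≤ uF F (vc P) i ∧ uF F (vc P) i < y i + 1) →
      pF F (vc P) ≤ tt (K := K) y → ∀ e f : Em K, rs F e = rs F f →
        ‖br (vc P e) (vc P f)‖ ≤ C * Real.exp (y e.1 + y f.1) := by
  obtain ⟨C', hC', hbr⟩ := hBRF hodd (∑ j, |κ j| + 1)
  refine ⟨C' * Real.exp 2, by positivity, ?_⟩
  intro i₀ y P hP hκ h1 h2 e f hef
  have h3 := hbr (vc P) (Pool.Agent.Y714.KE.SYM_vc P) (fun w => pm_pos' hCRD hn hP w)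
    (fun j => by
      have h3 : |κ j| ≤ ∑ j, |κ j| := single_le_sum (f := fun j => |κ j|)
        (fun _ _ => abs_nonneg _) (mem_univ j)
      obtain ⟨h4, h5⟩ := hκ j
      have h6 := neg_abs_le (κ j)
      have h7 := le_abs_self (κ j)
      rw [abs_le]
      constructor <;> linarith) e f hef
  refine h3.trans ?_
  rw [mul_assoc, ← Real.exp_add]
  refine mul_le_mul_of_nonneg_left (Real.exp_le_exp.2 ?_) hC'.le
  have e1 := uF_le hSUF hCRD hn hP h1 h2 e.1
  have e2 := uF_le hSUF hCRD hn hP h1 h2 f.1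
  linarith

/-- integers of `F` act on fractional ideals -/
theorem mem_int {i : s} {I : FI (K i)} {x : K i} (hx : x ∈ I) (a : 𝓞 F) :
    algebraMap F (K i) (a : F) * x ∈ I := by
  have h1 : IsIntegral ℤ (algebraMap F (K i) (a : F)) :=
    (RingOfIntegers.isIntegral_coe a).map (algebraMap F (K i)).toIntAlgHom
  have h2 : ((⟨algebraMap F (K i) (a : F), h1⟩ : 𝓞 (K i)) • x) ∈ (I : Submodule (𝓞 (K i)) (K i)) :=
    Submodule.smul_mem _ _ hx
  rw [Algebra.smul_def] at h2
  exact h2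

theorem mem_LF {P : Al K × Al K} {I : FA K} (hI : ∀ i, cn P i ≤ I i) {x : Al K}
    (hx : x ∈ LF F P) (i : s) : x i ∈ I i := by
  obtain ⟨a, b, rfl⟩ := hx
  have h := Pool.Agent.Y714.KF.ct_le.1 (hI i)
  change algebraMap F (K i) (a : F) * P.1 i + algebraMap F (K i) (b : F) * P.2 i ∈ I i
  have h1 : P.1 i ∈ I i := h.1
  have h2 : P.2 i ∈ I i := h.2
  exact (I i : Submodule (𝓞 (K i)) (K i)).add_mem (mem_int h1 a) (mem_int h2 b)

theorem norm_le_QY (y : s → ℝ) (x : Al K) (i : s) (σ : K i →+* ℂ) :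
    ‖σ (x i)‖ ≤ Real.exp (y i) * √(QY y x) := by
  have h1 : ‖σ (x i)‖ ^ 2 ≤ qf (x i) := by
    unfold Pool.Agent.Y714.KF.qf
    exact single_le_sum (f := fun σ : K i →+* ℂ => ‖σ (x i)‖ ^ 2) (fun _ _ => by positivity)
      (mem_univ σ)
  have h2 : Real.exp (-(2 * y i)) * qf (x i) ≤ QY y x := by
    unfold Pool.Agent.Y714.KE.QY
    exact single_le_sum (f := fun i => Real.exp (-(2 * y i)) * qf (x i))
      (fun i _ => mul_nonneg (Real.exp_pos _).le (Pool.Agent.Y714.KF.qf_nonneg _)) (mem_univ i)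
  have h3 : ‖σ (x i)‖ ^ 2 ≤ Real.exp (y i) ^ 2 * QY y x := by
    have h4 : Real.exp (y i) ^ 2 * (Real.exp (-(2 * y i)) * qf (x i)) = qf (x i) := by
      rw [← mul_assoc, ← Real.exp_nat_mul, ← Real.exp_add]
      have : ((2 : ℕ) : ℝ) * y i + -(2 * y i) = 0 := by push_cast; ring
      rw [this, Real.exp_zero, one_mul]
    have h5 := mul_le_mul_of_nonneg_left h2 (sq_nonneg (Real.exp (y i)))
    rw [h4] at h5
    exact h1.trans h5
  have h6 := Real.sqrt_le_sqrt h3
  rw [Real.sqrt_sq (norm_nonneg _), Real.sqrt_mul (sq_nonneg _), Real.sqrt_sq (Real.exp_pos _).le]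
    at h6
  exact h6

/-- nonzero components of elements of bounded content are not small -/
theorem lowb (I : FU K) : ∃ c : ℝ, 0 < c ∧ ∀ (y : s → ℝ) (x : Al K) (i : s), x i ∈ cf I i →
    x i ≠ 0 → c ≤ Real.exp (y i) * √(QY y x) := by
  have hpos : ∀ i, (0 : ℝ) < ((nm (cf I i) : ℚ) : ℝ) := by
    intro i
    have : 0 < nm (cf I i) := Pool.Agent.Y714.KF.nm_pos (Units.ne_zero (I i))
    exact_mod_cast this
  refine ⟨∏ i, min 1 ((nm (cf I i) : ℚ) : ℝ), prod_pos fun i _ => lt_min one_pos (hpos i), ?_⟩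
  intro y x i hxI hx0
  have hle : ∏ i, min 1 ((nm (cf I i) : ℚ) : ℝ) ≤ min 1 ((nm (cf I i) : ℚ) : ℝ) := by
    rw [← mul_prod_erase univ (fun i => min 1 ((nm (cf I i) : ℚ) : ℝ)) (mem_univ i)]
    refine mul_le_of_le_one_right (lt_min one_pos (hpos i)).le ?_
    exact prod_le_one (fun j _ => (lt_min one_pos (hpos j)).le) (fun j _ => min_le_left _ _)
  refine hle.trans ?_
  by_contra hcon
  rw [not_le] at hcon
  obtain ⟨t, ht⟩ : ∃ t, t = Real.exp (y i) * √(QY y x) := ⟨_, rfl⟩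
  rw [← ht] at hcon
  have ht0 : 0 ≤ t := by rw [ht]; positivity
  have ht1 : t < 1 := hcon.trans_le (min_le_left _ _)
  have ht2 : t < ((nm (cf I i) : ℚ) : ℝ) := hcon.trans_le (min_le_right _ _)
  have h1 : nm (cf I i) ≤ nm (sp (x i)) :=
    Pool.Agent.Y714.KF.nm_anti (Pool.Agent.Y714.KF.sp_ne hx0) (Pool.Agent.Y714.KF.sp_le.2 hxI)
  have h2 : ((nm (cf I i) : ℚ) : ℝ) ≤ ((nm (sp (x i)) : ℚ) : ℝ) := by exact_mod_cast h1
  rw [← Pool.Agent.Y714.KF.prod_norm_emb] at h2
  have h3 : ∏ σ : K i →+* ℂ, ‖σ (x i)‖ ≤ ∏ _σ : K i →+* ℂ, t :=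
    prod_le_prod (fun _ _ => norm_nonneg _) fun σ _ => by
      rw [ht]
      exact norm_le_QY y x i σ
  rw [prod_const, card_univ] at h3
  have h4 : Fintype.card (K i →+* ℂ) ≠ 0 := Fintype.card_ne_zero
  have h5 := pow_le_of_le_one ht0 ht1.le h4
  linarith

/-- the cases for a reduced pair -/
theorem cases_pair (hCRD : S_CRD F K) (hn : 2 ≤ dF F K) {Q : Al K × Al K} (hQ : NDF F Q) :
    (∀ i, Q.1 i ≠ 0) ∨ ∃ j, finrank F (K j) = 1 ∧ Q.1 j = 0 ∧ Q.2 j ≠ 0 ∧
      ∀ i, i ≠ j → Q.1 i ≠ 0 := by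
  classical
  by_cases hall : ∀ i, Q.1 i ≠ 0
  · exact Or.inl hall
  right
  push Not at hall
  obtain ⟨j, hj⟩ := hall
  obtain ⟨w⟩ : Nonempty (F →+* ℂ) := inferInstance
  have hfin : ∀ i, Finite {σ : K i →+* ℂ // σ.comp (algebraMap F (K i)) = w} := fun i =>
    inferInstance
  refine ⟨j, ?_, hj, ?_, ?_⟩
  · by_contra h1
    have h0 : 0 < finrank F (K j) := by
      have h2 := hCRD.2.2 j
      have h3 : 0 < finrank ℚ (K j) := finrank_pos
      rcases Nat.eq_zero_or_pos (finrank F (K j)) with h4 | h4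
      · rw [h4] at h2
        omega
      · exact h4
    have hcard := hCRD.1 j w
    have := Fintype.ofFinite {σ : K j →+* ℂ // σ.comp (algebraMap F (K j)) = w}
    rw [Nat.card_eq_fintype_card] at hcard
    obtain ⟨σ, τ, hστ⟩ := Fintype.one_lt_card_iff.1 (show 1 < Fintype.card
      {σ : K j →+* ℂ // σ.comp (algebraMap F (K j)) = w} by omega)
    apply hQ ⟨j, σ.1⟩ ⟨j, τ.1⟩ (fun h => hστ (Subtype.ext (by simpa using h)))
      (σ.2.trans τ.2.symm)
    unfold Pool.Agent.Y714.KF.br Pool.Agent.Y714.KE.vc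
    simp [hj]
  · rcases hQ.ne hCRD hn j with h | h
    · exact absurd hj h
    · exact h
  · intro i hij h0
    have hpos : ∀ i, 0 < finrank F (K i) := by
      intro i
      have h2 := hCRD.2.2 i
      have h3 : 0 < finrank ℚ (K i) := finrank_pos
      rcases Nat.eq_zero_or_pos (finrank F (K i)) with h4 | h4
      · rw [h4] at h2
        omega
      · exact h4
    have hne : ∀ i, Nonempty {σ : K i →+* ℂ // σ.comp (algebraMap F (K i)) = w} := by
      intro i
      by_contra h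
      rw [not_nonempty_iff] at h
      have h2 := hCRD.1 i w
      rw [Nat.card_of_isEmpty] at h2
      have := hpos i
      omega
    obtain ⟨σ⟩ := hne i
    obtain ⟨τ⟩ := hne j
    apply hQ ⟨i, σ.1⟩ ⟨j, τ.1⟩ (fun h => hij (congrArg Sigma.fst h)) (σ.2.trans τ.2.symm)
    unfold Pool.Agent.Y714.KF.br Pool.Agent.Y714.KE.vc
    simp [hj, h0]

/-- CLF -/
theorem clf (h1 : S_RDF F K) (h2 : S_BRF F K) (h3 : S_SUF F K) (h4 : S_CRD F K) :
    S_CLF F K := by
  intro hodd hn κ i₀ I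
  have hn2 : 2 ≤ dF F K := by omega
  obtain ⟨C1, hC1, hbr⟩ := br_cell h2 h3 h4 hodd hn2 κ
  obtain ⟨C2, hC2, hrd⟩ := h1 hn2 I C1
  obtain ⟨c, hc, hlow⟩ := lowb I
  refine ⟨2 * |Real.log c| + |Real.log C2| + 1, by positivity, ?_⟩
  rintro y ⟨M, P, rfl, hcn, hND, hNZ, hui, hpm⟩
  obtain ⟨α, hα, β, hβ, m, -, -, hq0, hq1, hq2, hind, -⟩ := hrd y P hcn hND
    (hbr i₀ y P hND hNZ hui hpm)
  have hαI : ∀ i, α i ∈ cf I i := mem_LF hcn hα
  have hβI : ∀ i, β i ∈ cf I i := mem_LF hcn hβ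
  -- the pair
  have hND' : NDF F (α, β) := by
    obtain ⟨a, b, ha⟩ := hα
    obtain ⟨a', b', hb⟩ := hβ
    have e : (α, β) = glF F (a : F) (b : F) (a' : F) (b' : F) P := by
      unfold glF
      rw [ha, hb]
    rw [e]
    refine hND.glF ?_
    intro hdet
    have hdet' := congrArg (fa F K) hdet
    rw [map_sub, map_mul, map_mul, map_zero] at hdet'
    have e1 := hind (a' : F) (-(a : F)) (by
      rw [ha, hb, map_neg]
      linear_combination (-P.2) * hdet')
    have e2 := hind (b' : F) (-(b : F)) (by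
      rw [ha, hb, map_neg]
      linear_combination P.1 * hdet')
    have e3 := hind 1 0 (by
      rw [ha, neg_eq_zero.1 e1.2, neg_eq_zero.1 e2.2]
      simp)
    exact one_ne_zero e3.1
  have l1 := neg_le_abs (Real.log c)
  have l2 := le_abs_self (Real.log C2)
  have l3 := abs_nonneg (Real.log c)
  have l4 := abs_nonneg (Real.log C2)
  have hs0 : 0 < √(QY y α) := Real.sqrt_pos.2 hq0
  have keyA : ∀ i, α i ≠ 0 → -(|Real.log c|) - |Real.log C2| ≤ y i := by
    intro i hi
    have h5 := hlow y α i (hαI i) hi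
    have h6 := Real.log_le_log hc h5
    rw [Real.log_mul (Real.exp_pos _).ne' hs0.ne', Real.log_exp, Real.log_sqrt hq0.le] at h6
    have h7 := Real.log_le_log hq0 hq1
    linarith
  have keyB : ∀ i j, α i ≠ 0 → β j ≠ 0 → -(2 * |Real.log c|) - |Real.log C2| ≤ y i + y j := by
    intro i j hi hj
    have h5 := hlow y α i (hαI i) hi
    have h6 := hlow y β j (hβI j) hj
    have h7 : c * c ≤ (Real.exp (y i) * √(QY y α)) * (Real.exp (y j) * √(QY y β)) :=
      mul_le_mul h5 h6 hc.le (by positivity)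
    have h8 : (Real.exp (y i) * √(QY y α)) * (Real.exp (y j) * √(QY y β)) =
        Real.exp (y i + y j) * √(QY y α * QY y β) := by
      rw [Real.exp_add, Real.sqrt_mul hq0.le]
      ring
    rw [h8] at h7
    have h9 : c * c ≤ Real.exp (y i + y j) * √C2 :=
      h7.trans (mul_le_mul_of_nonneg_left (Real.sqrt_le_sqrt hq2) (Real.exp_pos _).le)
    have h10 := Real.log_le_log (mul_pos hc hc) h9
    rw [Real.log_mul hc.ne' hc.ne', Real.log_mul (Real.exp_pos _).ne' (Real.sqrt_pos.2 hC2).ne',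
      Real.log_exp, Real.log_sqrt hC2.le] at h10
    linarith
  have hs : Nonempty s := by
    by_contra h
    rw [not_nonempty_iff] at h
    have : dF F K = 0 := by
      unfold dF
      exact Finset.sum_eq_zero fun i _ => (h.false i).elim
    omega
  rcases cases_pair h4 hn2 hND' with h | ⟨j, hj1, hj0, hjb, hjw⟩
  · obtain ⟨j⟩ := hs
    refine ⟨j, fun _ => ?_, fun i _ => ⟨?_, ?_⟩⟩
    · linarith [keyA j (h j)]
    · linarith [keyA i (h i)]
    · have e1 := keyA j (h j)
      have e2 := keyA i (h i)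
      have h7 : c ≤ Real.exp (y i) * √(QY y α) := hlow y α i (hαI i) (h i)
      have h8 : c ≤ Real.exp (y j) * √(QY y α) := hlow y α j (hαI j) (h j)
      have h9 : c * c ≤ Real.exp (y i + y j) * C2 := by
        refine (mul_le_mul h7 h8 hc.le (by positivity)).trans ?_
        have : (Real.exp (y i) * √(QY y α)) * (Real.exp (y j) * √(QY y α)) =
            Real.exp (y i + y j) * QY y α := by
          rw [Real.exp_add]
          have := Real.mul_self_sqrt hq0.le
          linear_combination (Real.exp (y i) * Real.exp (y j)) * this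
        rw [this]
        exact mul_le_mul_of_nonneg_left hq1 (Real.exp_pos _).le
      have h10 := Real.log_le_log (mul_pos hc hc) h9
      rw [Real.log_mul hc.ne' hc.ne', Real.log_mul (Real.exp_pos _).ne' hC2.ne',
        Real.log_exp] at h10
      linarith
  · refine ⟨j, fun h => by omega, fun i hij => ⟨?_, ?_⟩⟩
    · linarith [keyA i (hjw i hij)]
    · linarith [keyB i j (hjw i hij) hjb]

end

end Pool.Agent.Y455.KG
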