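import Pool.Agent.Y714.KG.Bs
import Pool.Agent.Y858.KE.CR

set_option autoImplicit false
set_option linter.unusedSectionVars false
set_option linter.unusedVariables false

/-! Project KG, step CRF: the crude bound. -/

namespace Pool.Agent.Y455.KG

open Pool.Agent.Y714.KG
open Pool.Agent.Y714.KE (Al FA FU Em Ux dg cf cp vc cn nA sm un SYM QY tt yy)
open Pool.Agent.Y714.KF (FI sp ct nm pm ext br ubas qf)
open Pool.Agent.Y858.KE (sum_yy cell_bound card_box tt_yy)
open NumberField FractionalIdeal Module Finset ComplexConjugate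
open scoped nonZeroDivisors

section

variable {F : Type} [Field F] [NumberField F] {s : Type} [Fintype s] [DecidableEq s]
  {K : s → Type} [∀ i, Field (K i)] [∀ i, NumberField (K i)] [∀ i, Algebra F (K i)]

/-- CRF -/
theorem crf (h1 : S_T1F F K) (h2 : S_CLF F K) (h3 : S_SUF F K) (h4 : S_CRD F K) :
    S_CRF F K := by
  intro hodd hn κ I
  obtain ⟨i₀⟩ : Nonempty s := by
    by_contra hcon
    rw [not_nonempty_iff] at hcon
    have : dF F K = 0 := by rw [dF, Finset.univ_eq_empty, sum_empty]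
    omega
  obtain ⟨C1, hC1, hT⟩ := h1 hodd hn κ i₀ I
  obtain ⟨C2, hC2, hE⟩ := h2 hodd hn κ i₀ I
  have hpos : ∀ i, 1 ≤ finrank F (K i) := by
    intro i
    have g2 := h4.2.2 i
    have g3 : 0 < finrank ℚ (K i) := finrank_pos
    rcases Nat.eq_zero_or_pos (finrank F (K i)) with g4 | g4
    · rw [g4] at g2
      omega
    · exact g4
  have hd1 : (1 : ℝ) ≤ finrank ℚ F := by
    exact_mod_cast (finrank_pos : 0 < finrank ℚ F)
  have hn' : 3 ≤ ∑ i, finrank F (K i) := hn
  set D : ℝ := (∑ l, (finrank F (K l) : ℝ)) * C2 + C2 with hD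
  have hD0 : 0 ≤ D := by positivity
  refine ⟨C1 * (2 * D + 1) ^ (Fintype.card s - 1), by positivity, fun t ht1 => ?_⟩
  have ht : 0 < t := by linarith
  have hlogt : 0 ≤ Real.log t := Real.log_nonneg ht1
  set N : ℕ := ⌊(1 / 2) * Real.log t + D⌋₊ with hN
  set Kt : Finset (s → ℤ) := Fintype.piFinset
    (fun i => if i = i₀ then ({0} : Finset ℤ) else Icc (-(N : ℤ)) N) with hKt
  have hcov : SAF F κ (cf I) t ⊆
      ⋃ k ∈ Kt, SYF F κ i₀ (cf I) (yy (fun i => (finrank ℚ (K i) : ℝ)) i₀ k t) := by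
    rintro M ⟨P, hM, hc, hND, hNZ, hpm⟩
    set k : s → ℤ := fun i => if i = i₀ then 0 else ⌊uF F (vc P) i⌋ with hk
    have hmem : M ∈ SYF F κ i₀ (cf I) (yy (fun i => (finrank ℚ (K i) : ℝ)) i₀ k t) := by
      refine ⟨P, hM, hc, hND, hNZ, fun i hi => ?_, ?_⟩
      · have e : yy (fun i => (finrank ℚ (K i) : ℝ)) i₀ k t i = (⌊uF F (vc P) i⌋ : ℝ) := by
          rw [yy, if_neg hi, hk]
          simp only [if_neg hi]
        rw [e]
        exact ⟨Int.floor_le _, Int.lt_floor_add_one _⟩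
      · rw [tt_yy i₀ k ht]
        exact hpm
    have h0 : (fun i => (finrank ℚ (K i) : ℝ)) i₀ ≠ 0 := by
      simp only [ne_eq, Nat.cast_eq_zero]
      exact (finrank_pos (R := ℚ) (M := K i₀)).ne'
    have hsum := sum_yy (fun i => (finrank ℚ (K i) : ℝ)) i₀ h0 k t
    have hsum2 : ∑ i, (finrank F (K i) : ℝ) * yy (fun i => (finrank ℚ (K i) : ℝ)) i₀ k t i ≤
        (1 / 2) * Real.log t := by
      have e1 : (finrank ℚ F : ℝ) *
          ∑ i, (finrank F (K i) : ℝ) * yy (fun i => (finrank ℚ (K i) : ℝ)) i₀ k t i =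
          (1 / 2) * Real.log t := by
        rw [← hsum, mul_sum]
        refine sum_congr rfl fun i _ => ?_
        rw [h4.2.2 i]
        push_cast
        ring
      obtain ⟨x, hx⟩ : ∃ x, x =
        ∑ i, (finrank F (K i) : ℝ) * yy (fun i => (finrank ℚ (K i) : ℝ)) i₀ k t i := ⟨_, rfl⟩
      rw [← hx] at e1 ⊢
      have hx0 : 0 ≤ x := by
        by_contra hneg
        rw [not_le] at hneg
        have : (finrank ℚ F : ℝ) * x < 0 := mul_neg_of_pos_of_neg (by linarith) hneg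
        linarith
      have : x ≤ (finrank ℚ F : ℝ) * x := le_mul_of_one_le_left hx0 hd1
      linarith
    obtain ⟨j, hj1, hj2⟩ := hE _ ⟨M, hmem⟩
    have hb := cell_bound (fun i => finrank F (K i)) hpos hn' C2 hC2.le
      _ j hj1 hj2
    refine Set.mem_biUnion (x := k) ?_ hmem
    rw [Finset.mem_coe, hKt, Fintype.mem_piFinset]
    intro i
    by_cases hi : i = i₀
    · rw [if_pos hi, hk]
      simp only [if_pos hi, mem_singleton]
    · rw [if_neg hi, mem_Icc, ← abs_le]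
      have g3 := hb i
      have e : yy (fun i => (finrank ℚ (K i) : ℝ)) i₀ k t i = (k i : ℝ) := by
        rw [yy, if_neg hi]
      rw [e] at g3
      have g4 : ((k i).natAbs : ℝ) ≤ (1 / 2) * Real.log t + D := by
        rw [Nat.cast_natAbs, Int.cast_abs]
        linarith
      have g5 : (k i).natAbs ≤ N := Nat.le_floor g4
      rw [Int.abs_eq_natAbs]
      exact_mod_cast g5
  have hfin : (⋃ k ∈ Kt, SYF F κ i₀ (cf I)
      (yy (fun i => (finrank ℚ (K i) : ℝ)) i₀ k t)).Finite :=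
    Set.Finite.biUnion Kt.finite_toSet fun k _ => (hT _).1
  refine ⟨hfin.subset hcov, ?_⟩
  have g3 : (SAF F κ (cf I) t).ncard ≤
      ∑ k ∈ Kt, (SYF F κ i₀ (cf I) (yy (fun i => (finrank ℚ (K i) : ℝ)) i₀ k t)).ncard :=
    (Set.ncard_le_ncard hcov hfin).trans (Finset.set_ncard_biUnion_le _ _)
  have g4 : ((SAF F κ (cf I) t).ncard : ℝ) ≤ (Kt.card : ℝ) * (C1 * t) := by
    calc ((SAF F κ (cf I) t).ncard : ℝ) ≤
        ((∑ k ∈ Kt, (SYF F κ i₀ (cf I)
          (yy (fun i => (finrank ℚ (K i) : ℝ)) i₀ k t)).ncard : ℕ) : ℝ) := by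
          exact_mod_cast g3
      _ = ∑ k ∈ Kt, ((SYF F κ i₀ (cf I)
          (yy (fun i => (finrank ℚ (K i) : ℝ)) i₀ k t)).ncard : ℝ) := by
        push_cast
        rfl
      _ ≤ ∑ k ∈ Kt, C1 * t := by
        refine sum_le_sum fun k _ => ?_
        have := (hT (yy (fun i => (finrank ℚ (K i) : ℝ)) i₀ k t)).2
        rwa [tt_yy i₀ k ht] at this
      _ = _ := by rw [sum_const, nsmul_eq_mul]
  have h5 : (2 * (N : ℝ) + 1) ≤ (2 * D + 1) * (1 + Real.log t) := by
    have h6 : (N : ℝ) ≤ (1 / 2) * Real.log t + D := Nat.floor_le (by positivity)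
    nlinarith [mul_nonneg hD0 hlogt]
  have h6 : (Kt.card : ℝ) ≤ ((2 * D + 1) * (1 + Real.log t)) ^ (Fintype.card s - 1) := by
    rw [hKt, card_box]
    push_cast
    exact pow_le_pow_left₀ (by positivity) h5 _
  calc ((SAF F κ (cf I) t).ncard : ℝ) ≤ (Kt.card : ℝ) * (C1 * t) := g4
    _ ≤ ((2 * D + 1) * (1 + Real.log t)) ^ (Fintype.card s - 1) * (C1 * t) := by
      gcongr
    _ = _ := by rw [mul_pow]; ring

end

end Pool.Agent.Y455.KG
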